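import Pool.Agent.P8H8.EV.Stm
import Pool.Agent.P8H8.SV.Asm

/-!
# Project EV: assembly
-/

set_option autoImplicit false

open MeasureTheory Set Filter Metric
open scoped Topology ContDiff ComplexConjugate

namespace Pool.Agent.P8H8.EV

open Pool.Agent.R227.SA (la Dat dat_of_sol)
open Pool.Agent.TH298.Sch (Sol)
open Pool.Agent.P8H8.SV

variable {φ : ℂ → ℂ} {r : ℝ} {Θ : ℝ → ℝ}

/-- the hierarchy for weak solutions -/
theorem hier_sol (hH : S_HIER) (h : Dom φ r) {lam c : ℝ} {u : ℂ → ℝ} {G : ℂ → ℂ} (hlam : 0 < lam)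
    (hS : Sol (φ '' ball 0 1) lam c u G) (hu0 : ¬ (u =ᵐ[volume.restrict (φ '' ball 0 1)] 0))
    (n : ℕ) (a : ℂ) (b : ℝ) :
    ∫ t in (0 : ℝ)..2 * Real.pi, U φ lam n t * (ip (kf a b (γ φ t)) (N φ t) : ℂ) = 0 := by
  have hcont : ContinuousOn φ (closedBall 0 1) :=
    h.hol.continuousOn.mono (closedBall_subset_ball h.hr)
  have hb : Bornology.IsBounded (φ '' ball 0 1) :=
    ((isCompact_closedBall (0 : ℂ) 1).image_of_continuousOn hcont).isBounded.subset
      (image_mono ball_subset_closedBall)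
  have hop : IsOpen (φ '' ball 0 1) := by
    rw [← h.interior_closure]
    exact isOpen_interior
  have hc : c ≠ 0 := hS.c_ne hb hop.measurableSet hlam hu0
  obtain ⟨v, hv⟩ := dat_of_sol hop hb h.interior_closure hlam hS
  exact hH φ r lam c v h hlam hc hv n a b

/-- the top coefficients -/
theorem top_of_coeff (hEX : S_EXPD) (h : Dom φ r) (m : ℕ)
    (hC : ∀ (n k : ℕ) (a : ℂ) (b : ℝ), n ≤ 2 * m + 1 →
      ∫ t in (0 : ℝ)..2 * Real.pi, C φ n k t * (ip (kf a b (γ φ t)) (N φ t) : ℂ) = 0)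
    (j : ℕ) (a : ℂ) (b : ℝ) (hj : j ≤ m) : ∫ t in (0 : ℝ)..2 * Real.pi,
      (conj (N φ t) / N φ t) ^ j * (ip (kf a b (γ φ t)) (N φ t) : ℂ) = 0 := by
  have h1 := hC (2 * j) j a b (by omega)
  obtain ⟨_, _, _, _, htop⟩ := hEX φ r h
  have e : ∀ t, C φ (2 * j) j t * (ip (kf a b (γ φ t)) (N φ t) : ℂ) =
      (-1 / 4 : ℂ) ^ j * ((conj (N φ t) / N φ t) ^ j * (ip (kf a b (γ φ t)) (N φ t) : ℂ)) := by
    intro t
    rw [htop j t, show -(conj (N φ t) / N φ t) / 4 = (-1 / 4 : ℂ) * (conj (N φ t) / N φ t) by ring,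
      mul_pow]
    ring
  simp_rw [e] at h1
  rw [intervalIntegral.integral_const_mul] at h1
  rcases mul_eq_zero.1 h1 with h2 | h2
  · exact absurd h2 (pow_ne_zero _ (by norm_num))
  · exact h2

/-- vertices from sign changes of the support function -/
theorem vert_of_supp (hVERT : S_VERT) (h : Dom φ r) (hA : Ang φ Θ)
    (hΘ : ∀ t, 0 ≤ deriv Θ t) (hmono : StrictMono Θ)
    (a : ℂ) (R : ℝ) (n : ℕ) (hn : 2 ≤ n)
    (h1 : AltSigns n (fun t => hs φ Θ a t - R)) : AltSigns n (deriv (curv φ)) := by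
  set z : ℝ → ℂ := fun t => (γ φ t - a) * Complex.exp (-(Θ t * Complex.I)) with hz
  have hzd : ∀ t, HasDerivAt z (Complex.I * ‖N φ t‖ - Complex.I * deriv Θ t * z t) t :=
    fun t => hasDerivAt_z h hA a t
  have hzp : ∀ t, z (t + 2 * Real.pi) = z t := by
    intro t
    simp only [hz]
    rw [γ_per, hA.per]
    congr 1
    have : (-(((Θ t + 2 * Real.pi : ℝ) : ℂ) * Complex.I)) =
        -(Θ t * Complex.I) - 2 * Real.pi * Complex.I := by push_cast; ring
    rw [this, Complex.exp_sub, Complex.exp_two_pi_mul_I, div_one]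
  refine hVERT n Θ (fun t => (z t).re - R) (fun t => (z t).im) (fun t => ‖N φ t‖) (curv φ) R hn
    (hA.sm.of_le (by norm_cast)) hmono hΘ hA.per ?_ ?_ h.N_pos
    (h.contDiff_σ.of_le (by exact_mod_cast le_top)) ?_ ?_ ?_ ?_ h1
  · intro t
    have h2 : HasDerivAt (fun t => (z t).re) _ t :=
      (Complex.reCLM.hasFDerivAt.comp_hasDerivAt t (hzd t))
    refine (h2.sub_const R).congr_deriv ?_
    simp [mul_comm]
  · intro t
    have h2 : HasDerivAt (fun t => (z t).im) _ t :=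
      (Complex.imCLM.hasFDerivAt.comp_hasDerivAt t (hzd t))
    refine h2.congr_deriv ?_
    simp [mul_comm]
  · intro t
    unfold curv
    rw [hA.der, norm_N]
  · intro t
    simp only [hzp]
  · intro t
    simp only [hzp]
  · intro t
    simp only [N_per]

lemma hs_cont (h : Dom φ r) (hA : Ang φ Θ) (a : ℂ) : Continuous (hs φ Θ a) := by
  have hc1 : Continuous Θ := hA.sm.continuous
  have hc3 : Continuous (γ φ) := h.contDiff_γ.continuous
  unfold hs
  fun_prop

lemma hs_per (hA : Ang φ Θ) (a : ℂ) (t : ℝ) : hs φ Θ a (t + 2 * Real.pi) = hs φ Θ a t := by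
  unfold hs
  rw [γ_per, hA.per]
  congr 2
  have : (-(((Θ t + 2 * Real.pi : ℝ) : ℂ) * Complex.I)) =
      -(Θ t * Complex.I) - 2 * Real.pi * Complex.I := by push_cast; ring
  rw [this, Complex.exp_sub, Complex.exp_two_pi_mul_I, div_one]

/-- the mean of the support function is positive -/
lemma mean_pos (hHS : S_HSUP) (h : Dom φ r) (hA : Ang φ Θ) (a : ℂ) :
    0 < ∫ t in (0 : ℝ)..2 * Real.pi, hs φ Θ a t * deriv Θ t := by
  have h1 := (hHS φ r Θ a 0 h hA).1
  simp only [Nat.cast_zero, zero_mul, Real.cos_zero, mul_one, ne_eq, OfNat.ofNat_ne_zero,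
    not_false_eq_true, zero_pow, sub_zero, one_mul] at h1
  rw [← h1]
  have hpi := Real.pi_pos
  have hc : Continuous (fun t => ‖N φ t‖) := h.contDiff_σ.continuous
  exact intervalIntegral.intervalIntegral_pos_of_pos (hc.intervalIntegrable _ _) h.N_pos
    (by positivity)

/-- sign changes of the support function from orthogonality -/
theorem vert_of_noH (hST : S_STURM) (hVERT : S_VERT) (hHC : S_HCON) (hHS : S_HSUP) (h : Dom φ r)
    (hA : Ang φ Θ) (hΘ : ∀ t, 0 ≤ deriv Θ t) (hmono : StrictMono Θ) (a : ℂ) (R : ℝ) (n : ℕ)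
    (hn : 1 ≤ n) (ho : ∀ k ≤ n, NoH Θ (fun t => hs φ Θ a t - R) k)
    (hnd : ¬ ∃ (p : ℂ) (r0 : ℝ), 0 < r0 ∧ φ '' ball 0 1 = ball p r0) :
    AltSigns (n + 1) (deriv (curv φ)) := by
  have hc := hs_cont h hA a
  have hc2 : Continuous (deriv Θ) := hA.sm.continuous_deriv (by simp)
  have hpi := Real.pi_pos
  rcases hST n (fun t => hs φ Θ a t - R) Θ hn (by fun_prop) (fun t => by rw [hs_per hA])
    (hA.sm.of_le (by exact_mod_cast le_top)) hA.per hΘ hmono (fun k hk => (ho k hk).1)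
    (fun k hk => (ho k hk).2) with h1 | h1
  · exact vert_of_supp hVERT h hA hΘ hmono a R (n + 1) (by omega) h1
  · exfalso
    have hR : 0 < R := by
      have h2 := mean_pos hHS h hA a
      have h3 : ∀ t, hs φ Θ a t = R := fun t => by linarith [h1 t]
      simp_rw [h3] at h2
      rw [intervalIntegral.integral_const_mul, int_one hA] at h2
      by_contra hneg
      push Not at hneg
      nlinarith
    exact hnd ⟨a, R, hR, hHC φ r Θ a R h hA hmono (fun t => by linarith [h1 t]) hR⟩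

lemma noH_sub_const (hA : Ang φ Θ) {f : ℝ → ℝ} (hf : Continuous f) {k : ℕ} (hk : 1 ≤ k)
    (h1 : NoH Θ f k) (R : ℝ) : NoH Θ (fun t => f t - R) k := by
  have hc1 : Continuous Θ := hA.sm.continuous
  have hc2 : Continuous (deriv Θ) := hA.sm.continuous_deriv (by simp)
  constructor
  · have e : ∀ t, (f t - R) * Real.cos (k * Θ t) * deriv Θ t =
        f t * Real.cos (k * Θ t) * deriv Θ t - R * (Real.cos (k * Θ t) * deriv Θ t) := by
      intro t
      ring
    simp_rw [e]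
    rw [intervalIntegral.integral_sub (by apply Continuous.intervalIntegrable; fun_prop)
      (by apply Continuous.intervalIntegrable; fun_prop), h1.1,
      intervalIntegral.integral_const_mul, int_cos hA hk]
    simp
  · have e : ∀ t, (f t - R) * Real.sin (k * Θ t) * deriv Θ t =
        f t * Real.sin (k * Θ t) * deriv Θ t - R * (Real.sin (k * Θ t) * deriv Θ t) := by
      intro t
      ring
    simp_rw [e]
    rw [intervalIntegral.integral_sub (by apply Continuous.intervalIntegrable; fun_prop)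
      (by apply Continuous.intervalIntegrable; fun_prop), h1.2,
      intervalIntegral.integral_const_mul, int_sin hA hk]
    simp

lemma noH_zero (hA : Ang φ Θ) {f : ℝ → ℝ} (hf : Continuous f) :
    NoH Θ (fun t => f t - (∫ t in (0 : ℝ)..2 * Real.pi, f t * deriv Θ t) / (2 * Real.pi)) 0 := by
  have hc2 : Continuous (deriv Θ) := hA.sm.continuous_deriv (by simp)
  have hpi := Real.pi_pos
  set S := (∫ t in (0 : ℝ)..2 * Real.pi, f t * deriv Θ t) / (2 * Real.pi) with hS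
  constructor
  · have e : ∀ t, (f t - S) * Real.cos (((0 : ℕ) : ℝ) * Θ t) * deriv Θ t =
        f t * deriv Θ t - S * deriv Θ t := by
      intro t
      simp
      ring
    simp_rw [e]
    rw [intervalIntegral.integral_sub (by apply Continuous.intervalIntegrable; fun_prop)
      (by apply Continuous.intervalIntegrable; fun_prop),
      intervalIntegral.integral_const_mul, int_one hA, hS]
    field_simp
    ring
  · simp

/-- domains with `n`-fold symmetry, `n` odd -/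
theorem nfold_main (hST : S_STURM) (hVERT : S_VERT) (hHC : S_HCON) (hHS : S_HSUP)
    (hNF : S_NFOLD) (hON : S_ORTHN) (h : Dom φ r)
    (hA : Ang φ Θ) (hΘ : ∀ t, 0 ≤ deriv Θ t) (hmono : StrictMono Θ) (m n : ℕ)
    (hρ : ∀ j : ℕ, j ≤ m →
      (∫ t in (0 : ℝ)..2 * Real.pi, ‖N φ t‖ * Real.cos ((2 * j + 1 : ℕ) * Θ t) = 0) ∧
      ∫ t in (0 : ℝ)..2 * Real.pi, ‖N φ t‖ * Real.sin ((2 * j + 1 : ℕ) * Θ t) = 0)
    (hn : 3 ≤ n) (hodd : Odd n) (hnm : n ≤ 2 * m + 1)
    (hsym : ∀ w ∈ ball (0 : ℂ) r, φ (Complex.exp (2 * Real.pi * Complex.I / n) * w) =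
      Complex.exp (2 * Real.pi * Complex.I / n) * φ w)
    (hnd : ¬ ∃ (p : ℂ) (r0 : ℝ), 0 < r0 ∧ φ '' ball 0 1 = ball p r0) :
    AltSigns (2 * n) (deriv (curv φ)) := by
  have hNF' := hNF φ r Θ n h hA (by omega) hsym
  have hcf := hs_cont h hA 0
  have hper : ∀ t, hs φ Θ 0 (t + 2 * Real.pi / n) = hs φ Θ 0 t := by
    intro t
    obtain ⟨h1, h2⟩ := hNF' t
    unfold hs
    rw [h1, h2]
    congr 1
    have e : -(((Θ t + 2 * Real.pi / n : ℝ) : ℂ) * Complex.I) =
        -(Θ t * Complex.I) - 2 * Real.pi * Complex.I / n := by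
      push_cast
      ring
    rw [e, Complex.exp_sub]
    have hne := Complex.exp_ne_zero (2 * Real.pi * Complex.I / n)
    field_simp
    ring
  have hn0 : (n : ℝ) ≠ 0 := by positivity
  have e2 : 2 * n = (2 * n - 1) + 1 := by omega
  rw [e2]
  refine vert_of_noH hST hVERT hHC hHS h hA hΘ hmono 0
    ((∫ t in (0 : ℝ)..2 * Real.pi, hs φ Θ 0 t * deriv Θ t) / (2 * Real.pi)) (2 * n - 1)
    (by omega) (fun k hk => ?_) hnd
  rcases Nat.eq_zero_or_pos k with rfl | hk0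
  · exact noH_zero hA hcf
  refine noH_sub_const hA hcf hk0 ?_ _
  by_cases hdiv : n ∣ k
  · have hkn : k = n := by
      obtain ⟨i, rfl⟩ := hdiv
      have h1 : i < 2 := by
        by_contra hge
        push Not at hge
        have : n * 2 ≤ n * i := Nat.mul_le_mul_left n hge
        omega
      have h2 : i = 1 := by
        interval_cases i
        · simp at hk0
        · rfl
      rw [h2, mul_one]
    subst hkn
    obtain ⟨j, hj⟩ := hodd
    have h3 := hρ j (by omega)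
    rw [← hj] at h3
    obtain ⟨h4, h5⟩ := hHS φ r Θ 0 k h hA
    have hk2 : (1 - (k : ℝ) ^ 2) ≠ 0 := by
      have : (3 : ℝ) ≤ k := by exact_mod_cast hn
      nlinarith
    rw [h3.1] at h4
    rw [h3.2] at h5
    refine ⟨?_, ?_⟩
    · rcases mul_eq_zero.1 h4.symm with h6 | h6
      · exact absurd h6 hk2
      · exact h6
    · rcases mul_eq_zero.1 h5.symm with h6 | h6
      · exact absurd h6 hk2
      · exact h6
  · exact hON Θ (hs φ Θ 0) n k (by omega) (hA.sm.of_le (by exact_mod_cast le_top)) hcf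
      (fun t => (hNF' t).2) hper hdiv

/-- domains of constant width -/
theorem width_main (hST : S_STURM) (hVERT : S_VERT) (hHC : S_HCON) (hHS : S_HSUP)
    (hW : S_WIDTH) (h : Dom φ r)
    (hA : Ang φ Θ) (hΘ : ∀ t, 0 ≤ deriv Θ t) (hmono : StrictMono Θ) (m : ℕ)
    (hρ : ∀ j : ℕ, j ≤ m →
      (∫ t in (0 : ℝ)..2 * Real.pi, ‖N φ t‖ * Real.cos ((2 * j + 1 : ℕ) * Θ t) = 0) ∧
      ∫ t in (0 : ℝ)..2 * Real.pi, ‖N φ t‖ * Real.sin ((2 * j + 1 : ℕ) * Θ t) = 0)
    (D : ℝ) (hD : ∀ s t, Θ s = Θ t + Real.pi →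
      ((γ φ s - γ φ t) * Complex.exp (-(Θ s * Complex.I))).re = D)
    (hnd : ¬ ∃ (p : ℂ) (r0 : ℝ), 0 < r0 ∧ φ '' ball 0 1 = ball p r0) :
    AltSigns (2 * m + 3) (deriv (curv φ)) := by
  obtain ⟨a, ha⟩ := hW φ r Θ m D h hA hΘ hmono hρ hD
  exact vert_of_noH hST hVERT hHC hHS h hA hΘ hmono a (D / 2) (2 * m + 2) (by omega) ha hnd

/-- the general case -/
theorem dich_main (hST : S_STURM) (hDISC : S_DISC) (hSUPP : S_SUPP) (hVERT : S_VERT) (hTAU : S_TAU)
    (hCHG : S_CHG) (hPAIR : S_PAIR) (h : Dom φ r)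
    (hA : Ang φ Θ) (hsup : ∀ s t, ip (γ φ s - γ φ t) (N φ t) ≤ 0)
    (hΘ : ∀ t, 0 ≤ deriv Θ t) (hmono : StrictMono Θ) (m : ℕ)
    (hE : ∀ a : ℂ, ∀ j : ℕ, 1 ≤ j → j ≤ m → NoH Θ (fun t => ‖γ φ t - a‖ ^ 2) (2 * j))
    (hρ : ∀ j : ℕ, j ≤ m →
      (∫ t in (0 : ℝ)..2 * Real.pi, ‖N φ t‖ * Real.cos ((2 * j + 1 : ℕ) * Θ t) = 0) ∧
      ∫ t in (0 : ℝ)..2 * Real.pi, ‖N φ t‖ * Real.sin ((2 * j + 1 : ℕ) * Θ t) = 0)
    (hnd : ¬ ∃ (p : ℂ) (r0 : ℝ), 0 < r0 ∧ φ '' ball 0 1 = ball p r0) :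
    ∃ τ : ℝ → ℝ, Continuous τ ∧ StrictMono τ ∧ (∀ t, τ (τ t) = t + 2 * Real.pi) ∧
      (∀ t, Θ (τ t) = Θ t + Real.pi) ∧
      ((∃ (a : ℂ) (R : ℝ), 0 < R ∧ (∀ t, γ φ (τ t) + γ φ t = 2 * a) ∧
          AltSigns (2 * m + 2) (fun t => ‖γ φ t - a‖ - R) ∧
          AltSigns (2 * m + 2) (deriv (curv φ))) ∨
        AltSigns (2 * m + 3) (fun t => curv φ (τ t) - curv φ t)) := by
  obtain ⟨τ, t1, t2, t3, t4, t5⟩ := hTAU Θ hA.sm.continuous hmono hA.per
  refine ⟨τ, t1, t2, t4, t3, ?_⟩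
  rcases hPAIR φ r Θ τ m h hA hΘ hmono t1 t2 t3 t4 hρ with ⟨a, ha⟩ | h1
  · left
    have hcγ : Continuous (γ φ) := h.contDiff_γ.continuous
    have hf : Continuous (fun t => ‖γ φ t - a / 2‖ ^ 2) := by fun_prop
    have hfτ : ∀ t, ‖γ φ (τ t) - a / 2‖ ^ 2 = ‖γ φ t - a / 2‖ ^ 2 := by
      intro t
      have e : γ φ (τ t) - a / 2 = -(γ φ t - a / 2) := by
        rw [← ha t]
        ring
      rw [e, norm_neg]
    have horth : ∀ k : ℕ, 1 ≤ k → k ≤ 2 * m + 1 → NoH Θ (fun t => ‖γ φ t - a / 2‖ ^ 2) k := by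
      intro k hk1 hk2
      rcases Nat.even_or_odd k with he | ho
      · obtain ⟨j, hj⟩ := he
        have : k = 2 * j := by omega
        rw [this]
        exact hE (a / 2) j (by omega) (by omega)
      · obtain ⟨c1, c2⟩ := hCHG Θ τ (fun t => ‖γ φ t - a / 2‖ ^ 2) k
          (hA.sm.of_le (by exact_mod_cast le_top)) hmono hA.per t1 t3 hf
          (fun t => by simp only [γ_per])
        simp only [hfτ, ho.neg_one_pow] at c1 c2
        exact ⟨by simp only; linarith, by simp only; linarith⟩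
    obtain ⟨R, hR, hcr⟩ := cross_of_orth hST hDISC h hA hΘ hmono (a / 2) (2 * m + 1) (by omega)
      horth
    rcases hcr with hcr | hcr
    · refine ⟨a / 2, R, hR, fun t => by rw [ha t]; ring, hcr, ?_⟩
      exact vert_of_cross hSUPP hVERT h hA hsup hΘ hmono (a / 2) R hR (2 * m + 2) (by omega) hcr
    · exact absurd ⟨a / 2, R, hR, hcr⟩ hnd
  · exact Or.inr h1

end Pool.Agent.P8H8.EV
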