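import Pool.Agent.P8H8.EV.Fin0
import Pool.Agent.P8H4.EV.Chain
import Pool.Agent.P8H4.EV.Green
import Pool.Agent.P8H4.EV.Harm
import Pool.Agent.P8H4.EV.Hreg
import Pool.Agent.P8H57.EV.Wpde
import Pool.Agent.P8H65.EV.Flat
import Pool.Agent.P8H65.EV.Pair
import Pool.Agent.P8H65.EV.Tau
import Pool.Agent.P8H65.EV.Width
import Pool.Agent.P8H71.EV.Expd
import Pool.Agent.P8H71.EV.Rec
import Pool.Agent.P8H86.EV.Bas
import Pool.Agent.P8H86.EV.Coef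
import Pool.Agent.P8H86.EV.Nfold
import Pool.Agent.P8H88.EV.Bva
import Pool.Agent.P8H88.EV.Hier

/-!
# Project EV: the main theorem

Packages: helper4 (HREG, GREEN, HARM, CHAIN), helper57 (WPDE), helper65 (PAIR, TAU, CHG, WIDTH, FLAT,
HCON, HSUP), helper71 (EXPD, POLY, REC), helper86 (BAS, COEF, NFOLD, ORTHN), helper88 (BVA, HIER),
helper8 (assembly); and project SV (helper8, helper94, helper93, helper7, helper69, helper76,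
helper42).
-/

set_option autoImplicit false

open MeasureTheory Set Filter Metric
open scoped Topology ContDiff ComplexConjugate

namespace Pool.Agent.P8H8.EV

open Pool.Agent.P8H8.SV

theorem fin_main (φ : ℂ → ℂ) (r : ℝ) (h : Dom φ r) (Λ : Finset ℝ)
    (hΛ : ∀ lam ∈ Λ, 0 < lam ∧ HasSol (φ '' ball 0 1) lam) :
    (∀ lam ∈ Λ, ∀ (n : ℕ) (a : ℂ) (b : ℝ), ∫ t in (0 : ℝ)..2 * Real.pi,
      (∑ k ∈ Finset.range (n + 1), (lam : ℂ) ^ k * C φ n k t) *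
        (ip (kf a b (γ φ t)) (N φ t) : ℂ) = 0) ∧
    (∀ (n k : ℕ) (a : ℂ) (b : ℝ), n ≤ 2 * Λ.card + 1 →
      ∫ t in (0 : ℝ)..2 * Real.pi, C φ n k t * (ip (kf a b (γ φ t)) (N φ t) : ℂ) = 0) ∧
    (∀ (j : ℕ) (a : ℂ) (b : ℝ), j ≤ Λ.card → ∫ t in (0 : ℝ)..2 * Real.pi,
      (conj (N φ t) / N φ t) ^ j * (ip (kf a b (γ φ t)) (N φ t) : ℂ) = 0) ∧
    (Convex ℝ (φ '' ball 0 1) → (¬ ∃ (p : ℂ) (r0 : ℝ), 0 < r0 ∧ φ '' ball 0 1 = ball p r0) →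
      ∃ Θ : ℝ → ℝ, Ang φ Θ ∧
      (∃ τ : ℝ → ℝ, Continuous τ ∧ StrictMono τ ∧ (∀ t, τ (τ t) = t + 2 * Real.pi) ∧
        (∀ t, Θ (τ t) = Θ t + Real.pi) ∧
        ((∃ (a : ℂ) (R : ℝ), 0 < R ∧ (∀ t, γ φ (τ t) + γ φ t = 2 * a) ∧
            AltSigns (2 * Λ.card + 2) (fun t => ‖γ φ t - a‖ - R) ∧
            AltSigns (2 * Λ.card + 2) (deriv (curv φ))) ∨
          AltSigns (2 * Λ.card + 3) (fun t => curv φ (τ t) - curv φ t))) ∧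
      (∀ D : ℝ, (∀ s t, Θ s = Θ t + Real.pi →
        ((γ φ s - γ φ t) * Complex.exp (-(Θ s * Complex.I))).re = D) →
        AltSigns (2 * Λ.card + 3) (deriv (curv φ))) ∧
      (∀ n : ℕ, 3 ≤ n → Odd n → n ≤ 2 * Λ.card + 1 →
        (∀ w ∈ ball (0 : ℂ) r, φ (Complex.exp (2 * Real.pi * Complex.I / n) * w) =
          Complex.exp (2 * Real.pi * Complex.I / n) * φ w) →
        AltSigns (2 * n) (deriv (curv φ)))) := by
  have hREG : S_REG := REG.t_REG (PULL.t_PULL Pool.Agent.P8H94.SV.t_LAP) Pool.Agent.P8H42.SV.t_WEAK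
    Pool.Agent.P8H42.SV.t_ROT Pool.Agent.P8H42.SV.t_REP
  have hLIM : S_LIM := LIM.t_LIM Pool.Agent.P8H94.SV.t_LAP hREG
  have hBAS : S_BAS := Pool.Agent.P8H86.EV.t_BAS Pool.Agent.P8H4.EV.t_HREG
    Pool.Agent.P8H88.EV.t_BVA Pool.Agent.P8H4.EV.t_CHAIN
  have hREC : S_REC := Pool.Agent.P8H71.EV.t_REC Pool.Agent.P8H4.EV.t_CHAIN
    Pool.Agent.P8H57.EV.wpde hBAS Pool.Agent.P8H88.EV.t_BVA Pool.Agent.P8H86.EV.t_COEF
  have hHIER : S_HIER := Pool.Agent.P8H88.EV.t_HIER hREC Pool.Agent.P8H4.EV.t_GREEN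
    Pool.Agent.P8H4.EV.t_CHAIN Pool.Agent.P8H57.EV.wpde hLIM
  exact fin0 hHIER Pool.Agent.P8H71.EV.t_EXPD Pool.Agent.P8H71.EV.t_POLY Pool.Agent.P8H4.EV.t_HARM
    Pool.Agent.P8H65.EV.t_HSUP Pool.Agent.P8H86.EV.t_NFOLD Pool.Agent.P8H86.EV.t_ORTHN
    Pool.Agent.P8H65.EV.t_TAU Pool.Agent.P8H65.EV.t_CHG Pool.Agent.P8H65.EV.t_WIDTH Pool.Agent.P8H65.EV.t_PAIR
    Pool.Agent.P8H65.EV.t_HCON φ r h Λ hΛ

end Pool.Agent.P8H8.EV
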