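import Pool.Agent.P8H8.EV.Asm
import Pool.Agent.P8H8.SV.Fin

/-!
# Project EV: the main theorem from the packages
-/

set_option autoImplicit false

open MeasureTheory Set Filter Metric
open scoped Topology ContDiff ComplexConjugate

namespace Pool.Agent.P8H8.EV

open Pool.Agent.R227.SA (la Dat dat_of_sol)
open Pool.Agent.TH298.Sch (Sol)
open Pool.Agent.P8H8.SV

/-- the data of a solution -/
def HasSol (Ω : Set ℂ) (lam : ℝ) : Prop := ∃ (c : ℝ) (u : ℂ → ℝ) (G : ℂ → ℂ), Sol Ω lam c u G ∧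
  ¬ (u =ᵐ[volume.restrict Ω] 0)

theorem fin0 (hHIER : S_HIER) (hEXPD : S_EXPD) (hPOLY : S_POLY) (hHARM : S_HARM) (hHS : S_HSUP)
    (hNF : S_NFOLD) (hON : S_ORTHN) (hTAU : S_TAU) (hCHG : S_CHG) (hW : S_WIDTH) (hPAIR : S_PAIR)
    (hHC : S_HCON) (φ : ℂ → ℂ) (r : ℝ) (h : Dom φ r) (Λ : Finset ℝ)
    (hΛ : ∀ lam ∈ Λ, 0 < lam ∧ HasSol (φ '' ball 0 1) lam) :
    (∀ lam ∈ Λ, ∀ (n : ℕ) (a : ℂ) (b : ℝ), ∫ t in (0 : ℝ)..2 * Real.pi,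
      (∑ k ∈ Finset.range (n + 1), (lam : ℂ) ^ k * C φ n k t) *
        (ip (kf a b (γ φ t)) (N φ t) : ℂ) = 0) ∧
    (∀ (n k : ℕ) (a : ℂ) (b : ℝ), n ≤ 2 * Λ.card + 1 →
      ∫ t in (0 : ℝ)..2 * Real.pi, C φ n k t * (ip (kf a b (γ φ t)) (N φ t) : ℂ) = 0) ∧
    (∀ (j : ℕ) (a : ℂ) (b : ℝ), j ≤ Λ.card → ∫ t in (0 : ℝ)..2 * Real.pi,
      (conj (N φ t) / N φ t) ^ j * (ip (kf a b (γ φ t)) (N φ t) : ℂ) = 0) ∧
    (Convex ℝ (φ '' ball 0 1) → (¬ ∃ (p : ℂ) (r0 : ℝ), 0 < r0 ∧ φ '' ball 0 1 = ball p r0) →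
      ∃ Θ : ℝ → ℝ, Ang φ Θ ∧
      (∃ τ : ℝ → ℝ, Continuous τ ∧ StrictMono τ ∧ (∀ t, τ (τ t) = t + 2 * Real.pi) ∧
        (∀ t, Θ (τ t) = Θ t + Real.pi) ∧
        ((∃ (a : ℂ) (R : ℝ), 0 < R ∧ (∀ t, γ φ (τ t) + γ φ t = 2 * a) ∧
            AltSigns (2 * Λ.card + 2) (fun t => ‖γ φ t - a‖ - R) ∧
            AltSigns (2 * Λ.card + 2) (deriv (curv φ))) ∨
          AltSigns (2 * Λ.card + 3) (fun t => curv φ (τ t) - curv φ t))) ∧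
      (∀ D : ℝ, (∀ s t, Θ s = Θ t + Real.pi →
        ((γ φ s - γ φ t) * Complex.exp (-(Θ s * Complex.I))).re = D) →
        AltSigns (2 * Λ.card + 3) (deriv (curv φ))) ∧
      (∀ n : ℕ, 3 ≤ n → Odd n → n ≤ 2 * Λ.card + 1 →
        (∀ w ∈ ball (0 : ℂ) r, φ (Complex.exp (2 * Real.pi * Complex.I / n) * w) =
          Complex.exp (2 * Real.pi * Complex.I / n) * φ w) →
        AltSigns (2 * n) (deriv (curv φ)))) := by
  have H1 : ∀ lam ∈ Λ, ∀ (n : ℕ) (a : ℂ) (b : ℝ),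
      ∫ t in (0 : ℝ)..2 * Real.pi, U φ lam n t * (ip (kf a b (γ φ t)) (N φ t) : ℂ) = 0 := by
    intro lam hlam n a b
    obtain ⟨hpos, c, u, G, hS, hu0⟩ := hΛ lam hlam
    exact hier_sol hHIER h hpos hS hu0 n a b
  have H2 := hPOLY φ r Λ h (fun lam hlam => (hΛ lam hlam).1) H1
  have H3 := top_of_coeff hEXPD h Λ.card H2
  refine ⟨?_, H2, H3, ?_⟩
  · intro lam hlam n a b
    obtain ⟨_, _, _, hsum, _⟩ := hEXPD φ r h
    have := H1 lam hlam n a b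
    simp_rw [hsum lam n] at this
    exact this
  · intro hconv hnd
    obtain ⟨Θ, hA⟩ := Pool.Agent.P8H7.SV.t_ANG φ r h
    obtain ⟨hsup, hΘ, hmono⟩ := Pool.Agent.P8H7.SV.t_CONV φ r Θ h hA hconv
    obtain ⟨hE, hρ⟩ := hHARM φ r Θ Λ.card h hA (fun j a b hj => H3 j a b hj)
    have hVERT : S_VERT := Pool.Agent.P8H93.SV.t_VERT t_BASE
    refine ⟨Θ, hA, ?_, ?_, ?_⟩
    · exact dich_main Pool.Agent.P8H69.SV.t_STURM Pool.Agent.P8H7.SV.t_DISC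
        Pool.Agent.P8H76.SV.t_SUPP hVERT hTAU hCHG hPAIR h hA hsup hΘ hmono Λ.card hE hρ hnd
    · intro D hD
      exact width_main Pool.Agent.P8H69.SV.t_STURM hVERT hHC hHS hW h hA hΘ hmono Λ.card hρ D hD hnd
    · intro n hn hodd hnm hsym
      exact nfold_main Pool.Agent.P8H69.SV.t_STURM hVERT hHC hHS hNF hON h hA hΘ hmono Λ.card n hρ
        hn hodd hnm hsym hnd

end Pool.Agent.P8H8.EV
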