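import Pool.Agent.P8H8.SV.Core

/-!
# Project EV (MP_83fd13_an, Schiffer's conjecture): several frequencies and the number of vertices

`φ` is holomorphic and injective in `|w| < r`, `r > 1` (`Dom φ r`), `Ω = φ(D)`, `v = u - c` is the
solution of (S) extended by zero (`Dat (φ '' ball 0 1) lam c v`). Everything about the case of one
frequency (project SV) is on main: `Pool.Agent.P8H8.SV.*`, `P8H94.SV`, `P8H93.SV`, `P8H7.SV`,
`P8H69.SV`, `P8H76.SV`, `P8H42.SV`. Packages HREG, BVA, WPDE, CHAIN, BAS, REC, GREEN, HIER (analysis),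
POLY, HARM, HSUP, NFOLD, TAU, CHG, WIDTH, FLAT, PAIR (boundary curve).

Notation: `N t = w φ'(w)`, `w = exp(it)`, outer normal of length `σ = |N|`; `Θ` = direction of the
normal; `γ' = i N`; `kf a b z = a + i b z` (Killing field); `ip` scalar product.
-/

set_option autoImplicit false

open MeasureTheory Set Filter Metric
open scoped Topology ContDiff ComplexConjugate

namespace Pool.Agent.P8H8.EV

open Pool.Agent.TH298.Sch (SC dd Lr)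
open Pool.Agent.R227.SA (la Dat)
open Pool.Agent.P8H8.SV

/-! ## The hierarchy -/

/-- The function `U n`: `c U n` is the boundary value of the `n`-th complex derivative of the
solution. `U 0 = 1`, `U 1 = 0`, `U (n+2) = (U (n+1))' / (i N) - (lam / 4) (N̄ / N) U n`. -/
noncomputable def U (φ : ℂ → ℂ) (lam : ℝ) : ℕ → ℝ → ℂ
  | 0 => fun _ => 1
  | 1 => fun _ => 0
  | n + 2 => fun t => deriv (U φ lam (n + 1)) t / (Complex.I * N φ t) -
      lam / 4 * (conj (N φ t) / N φ t) * U φ lam n t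

/-- The coefficient of `lam ^ k` in `U n`. -/
noncomputable def C (φ : ℂ → ℂ) : ℕ → ℕ → ℝ → ℂ
  | 0, 0 => fun _ => 1
  | 0, _ + 1 => fun _ => 0
  | 1, _ => fun _ => 0
  | n + 2, 0 => fun t => deriv (C φ (n + 1) 0) t / (Complex.I * N φ t)
  | n + 2, k + 1 => fun t => deriv (C φ (n + 1) (k + 1)) t / (Complex.I * N φ t) -
      1 / 4 * (conj (N φ t) / N φ t) * C φ n k t

/-! ## Regularity -/

/-- HREG: all angular derivatives of the solution are `C¹` in the plane (extended by zero).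
Proof: `Pool.Agent.P8H8.SV.REG.t_REG` (file P8H8/SV/Reg.lean) is the case `k ≤ 1`; iterate it. Let
`V = Vd φ v`, `f = χ · (-lam ‖φ'‖²) (V + c) =: J · (V + c)` with `J` smooth and compactly supported
(lemma `ext_f`). Induction on `k`: the functions `Lr^[i] V`, `i ≤ k`, are `C¹`, and
`∫ Lr^[k] V · Δψ = ∫_D Lr^[k] f · ψ`. Then `Lr^[k] f ∈ C¹` (product rule for `Lr`; write
`A k g := ∀ i ≤ k, ContDiff ℝ 1 (Lr^[i] g)`; it is closed under sums and products, and contains the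
smooth functions), `S_ROT` (proved: `Pool.Agent.P8H42.SV.t_ROT`) gives the weak equation for
`Lr^[k+1] V`, and `S_REP` (`Pool.Agent.P8H42.SV.t_REP`) gives `Lr^[k+1] V ∈ C¹`. Start:
`PULL.t_PULL`, `t_WEAK`. The values outside the disc: `REG.fderiv_zero`. -/
def S_HREG : Prop := ∀ (φ : ℂ → ℂ) (r lam c : ℝ) (v : ℂ → ℝ), Dom φ r →
  Dat (φ '' ball 0 1) lam c v → ∀ k : ℕ,
  ContDiff ℝ 1 (Lr^[k] (Vd φ v)) ∧
  ∀ w, 1 ≤ ‖w‖ → Lr^[k] (Vd φ v) w = 0 ∧ fderiv ℝ (Lr^[k] (Vd φ v)) w = 0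

/-! ## Boundary values with all tangential derivatives -/

/-- uniform convergence `f(x + iy) → g(y)` as `x → 0-` -/
def UL (f : ℂ → ℂ) (g : ℝ → ℂ) : Prop :=
  ∀ ε > 0, ∃ δ > 0, ∀ x y : ℝ, -δ < x → x < 0 → ‖f (x + y * Complex.I) - g y‖ < ε

/-- the derivative in the direction `1` -/
noncomputable def Dx (f : ℂ → ℂ) (ζ : ℂ) : ℂ := fderiv ℝ f ζ 1

/-- the derivative in the direction `I` -/
noncomputable def Dy (f : ℂ → ℂ) (ζ : ℂ) : ℂ := fderiv ℝ f ζ Complex.I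

/-- `f` is smooth in the left half-plane, and all derivatives `∂_y^k f` converge uniformly to those
of the periodic function `g` as `x → 0-` -/
structure BV (f : ℂ → ℂ) (g : ℝ → ℂ) : Prop where
  sm : ContDiffOn ℝ ∞ f {ζ | ζ.re < 0}
  smg : ContDiff ℝ ∞ g
  per : ∀ y, g (y + 2 * Real.pi) = g y
  lim : ∀ k : ℕ, UL (Dy^[k] f) (deriv^[k] g)

/-- BVA: algebra of boundary values. (`Dy` is local, so functions equal in the half-plane have the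
same `Dy^[k]` there. For products show first, by induction on `k`, a version `BVk` with `lim` only
for the first `k` derivatives: `BVk (k+1) f g ↔ UL f g ∧ BVk k (Dy f) (deriv g)`; the boundary values
`g` are bounded since they are continuous and periodic.) -/
def S_BVA : Prop :=
  (∀ f1 f2 : ℂ → ℂ, ∀ g : ℝ → ℂ, BV f1 g → (∀ ζ : ℂ, ζ.re < 0 → f2 ζ = f1 ζ) → BV f2 g) ∧
  (∀ f1 f2 : ℂ → ℂ, ∀ g1 g2 : ℝ → ℂ, BV f1 g1 → BV f2 g2 →
    BV (fun ζ => f1 ζ + f2 ζ) (fun y => g1 y + g2 y)) ∧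
  (∀ f1 f2 : ℂ → ℂ, ∀ g1 g2 : ℝ → ℂ, BV f1 g1 → BV f2 g2 →
    BV (fun ζ => f1 ζ * f2 ζ) (fun y => g1 y * g2 y)) ∧
  (∀ f : ℂ → ℂ, ∀ g : ℝ → ℂ, BV f g → BV (Dy f) (deriv g)) ∧
  (∀ z : ℂ, BV (fun _ => z) (fun _ => z))

/-- COEF: smooth functions of `w = exp ζ` in the punctured disc `0 < |w| < r`, `r > 1`. (The
derivative `Dy (G ∘ exp)` is `(fun w => fderiv ℝ G w (I * w)) ∘ exp`, a function of the same kind;
uniform continuity in the closed annulus `1/2 ≤ |w| ≤ 1`, see `LIM.unif` in P8H8/SV/Lim.lean.) -/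
def S_COEF : Prop := ∀ (r : ℝ) (G : ℂ → ℂ), 1 < r → ContDiffOn ℝ ∞ G (ball 0 r \ {0}) →
  BV (fun ζ => G (Complex.exp ζ)) (fun y => G (Complex.exp (y * Complex.I)))

/-! ## The derivatives of the solution -/

/-- `∂/∂z` -/
noncomputable def dz (f : ℂ → ℂ) (z : ℂ) : ℂ := (fderiv ℝ f z 1 - Complex.I * fderiv ℝ f z Complex.I) / 2

/-- `∂/∂z̄` -/
noncomputable def dzb (f : ℂ → ℂ) (z : ℂ) : ℂ :=
  (fderiv ℝ f z 1 + Complex.I * fderiv ℝ f z Complex.I) / 2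

/-- the `n`-th complex derivative of the solution `u = v + c` -/
noncomputable def W (c : ℝ) (v : ℂ → ℝ) : ℕ → ℂ → ℂ
  | 0 => fun z => ((v z + c : ℝ) : ℂ)
  | n + 1 => dz (W c v n)

/-- WPDE: smoothness and the equations. `Dat` gives locally `v = U - c` with `U` smooth and
`Δ U = - lam U` (see `pk_loc` in P8H94/SV/Helm.lean), i.e. `4 dz (dzb (W 0)) = -lam W 0`; `dz` and
`dzb` commute on smooth functions. -/
def S_WPDE : Prop := ∀ (Ω : Set ℂ) (lam c : ℝ) (v : ℂ → ℝ), IsOpen Ω → Dat Ω lam c v → ∀ n : ℕ,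
  ContDiffOn ℝ ∞ (W c v n) Ω ∧
  (∀ z ∈ Ω, dzb (W c v (n + 1)) z = -(lam / 4) * W c v n z) ∧
  (∀ z ∈ Ω, dzb (W c v 0) z = conj (W c v 1 z)) ∧
  ∀ z ∈ Ω, Dx (Dx (W c v n)) z + Dy (Dy (W c v n)) z = -lam * W c v n z

/-- CHAIN: the chain rule for `f ∘ φ ∘ exp` -/
def S_CHAIN : Prop := ∀ (φ : ℂ → ℂ) (r : ℝ) (f : ℂ → ℂ), Dom φ r →
  ContDiffOn ℝ ∞ f (φ '' ball 0 1) →
  ContDiffOn ℝ ∞ (fun x => f (φ (Complex.exp x))) {ζ | ζ.re < 0} ∧
  ∀ ζ : ℂ, ζ.re < 0 → ∀ η : ℂ, fderiv ℝ (fun x => f (φ (Complex.exp x))) ζ η =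
    dz f (φ (Complex.exp ζ)) * (dF φ ζ * η) + dzb f (φ (Complex.exp ζ)) * conj (dF φ ζ * η)

/-- BAS: the boundary values of `u` and of `∂u/∂z`. In the coordinate `ζ`: `𝒱 ζ = v(φ(exp ζ))
= (Vd φ v)(exp ζ)` for `ζ.re < 0`, `Dy^[k] 𝒱 = (Lr^[k] (Vd φ v)) ∘ exp`, and all derivatives of these
functions tend to zero by HREG; `W 1 (φ(exp ζ)) = (Dx 𝒱 - i Dy 𝒱) / (2 dF)`. -/
def S_BAS : Prop := ∀ (φ : ℂ → ℂ) (r lam c : ℝ) (v : ℂ → ℝ), Dom φ r →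
  Dat (φ '' ball 0 1) lam c v →
  BV (fun ζ => W c v 0 (φ (Complex.exp ζ))) (fun _ => (c : ℂ)) ∧
  BV (fun ζ => W c v 1 (φ (Complex.exp ζ))) (fun _ => 0)

/-- REC: the boundary values of all complex derivatives of the solution. By CHAIN (with `η = I`) and
WPDE, `w (n+2) = Dy (w (n+1)) / (i dF) - (lam/4) (conj dF / dF) w n`, `w n ζ = W n (φ (exp ζ))`; this
is the recursion of `U`. -/
def S_REC : Prop := ∀ (φ : ℂ → ℂ) (r lam c : ℝ) (v : ℂ → ℝ), Dom φ r →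
  Dat (φ '' ball 0 1) lam c v → ∀ n : ℕ,
  BV (fun ζ => W c v n (φ (Complex.exp ζ))) (fun t => c * U φ lam n t)

/-- GREEN: Green's formula in the logarithmic coordinate, for two solutions of the Helmholtz
equation. Proof: `a = A ∘ φ ∘ exp` satisfies `Dx Dx a + Dy Dy a = -lam ‖dF‖² a` (complex version of
`S_LAP`); so the flux does not depend on `x` (see `flux_const` in P8H94/SV/Flux.lean), and it tends to
zero as `x → -∞`, because `a`, `b` are bounded and `Dx a`, `Dx b` tend to zero. -/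
def S_GREEN : Prop := ∀ (φ : ℂ → ℂ) (r lam : ℝ) (A B : ℂ → ℂ), Dom φ r →
  ContDiffOn ℝ ∞ A (φ '' ball 0 1) → ContDiffOn ℝ ∞ B (φ '' ball 0 1) →
  (∀ z ∈ φ '' ball 0 1, Dx (Dx A) z + Dy (Dy A) z = -lam * A z) →
  (∀ z ∈ φ '' ball 0 1, Dx (Dx B) z + Dy (Dy B) z = -lam * B z) → ∀ x : ℝ, x < 0 →
  ∫ y in (0 : ℝ)..2 * Real.pi,
    (A (φ (Complex.exp (x + y * Complex.I))) *
        Dx (fun ζ => B (φ (Complex.exp ζ))) (x + y * Complex.I) -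
      B (φ (Complex.exp (x + y * Complex.I))) *
        Dx (fun ζ => A (φ (Complex.exp ζ))) (x + y * Complex.I)) = 0

/-- HIER: the hierarchy. Apply GREEN to `A = W n` and `B z = fderiv ℝ v z (kf a b z)` (Helmholtz
equation: `pk_loc` in P8H94/SV/Helm.lean; `PP φ v a b ζ = B (φ (exp ζ))`) and let `x → 0-`: by `S_LIM`
(proved: `LIM.t_LIM`, P8H8/SV/Lim2.lean) `PP → 0` and `∂_x PP → -lam c ⟨K, N⟩` uniformly, by REC
`w n → c U n`, and `Dx (w n)` is bounded near `x = 0` by CHAIN (`η = 1`), WPDE and REC. Finally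
divide by `-lam c²`. -/
def S_HIER : Prop := ∀ (φ : ℂ → ℂ) (r lam c : ℝ) (v : ℂ → ℝ), Dom φ r → 0 < lam → c ≠ 0 →
  Dat (φ '' ball 0 1) lam c v → ∀ (n : ℕ) (a : ℂ) (b : ℝ),
  ∫ t in (0 : ℝ)..2 * Real.pi, U φ lam n t * (ip (kf a b (γ φ t)) (N φ t) : ℂ) = 0

/-! ## Several frequencies -/

/-- EXPD: the expansion in powers of `lam`. `C n k` is smooth; `C n k = 0` if `2 k > n`;
`C n 0 = 0` for `n ≥ 1`; the top coefficient. -/
def S_EXPD : Prop := ∀ (φ : ℂ → ℂ) (r : ℝ), Dom φ r →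
  (∀ n k, ContDiff ℝ ∞ (C φ n k)) ∧ (∀ n k t, n < 2 * k → C φ n k t = 0) ∧
  (∀ n t, 1 ≤ n → C φ n 0 t = 0) ∧
  (∀ (lam : ℝ) n t, U φ lam n t = ∑ k ∈ Finset.range (n + 1), (lam : ℂ) ^ k * C φ n k t) ∧
  ∀ j t, C φ (2 * j) j t = (-(conj (N φ t) / N φ t) / 4) ^ j

/-- POLY: if the identities hold for `m` different positive values of `lam`, then all coefficients
satisfy them up to `n = 2 m + 1` (a polynomial of degree at most `m` with the roots `0` and the `m`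
values; for `n = 0` it is the divergence theorem `∫ ⟨K, N⟩ dt = 0`, as `γ' = i N`). -/
def S_POLY : Prop := ∀ (φ : ℂ → ℂ) (r : ℝ) (Λ : Finset ℝ), Dom φ r → (∀ lam ∈ Λ, 0 < lam) →
  (∀ lam ∈ Λ, ∀ (n : ℕ) (a : ℂ) (b : ℝ),
    ∫ t in (0 : ℝ)..2 * Real.pi, U φ lam n t * (ip (kf a b (γ φ t)) (N φ t) : ℂ) = 0) →
  ∀ (n k : ℕ) (a : ℂ) (b : ℝ), n ≤ 2 * Λ.card + 1 →
    ∫ t in (0 : ℝ)..2 * Real.pi, C φ n k t * (ip (kf a b (γ φ t)) (N φ t) : ℂ) = 0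

/-! ## Harmonics of the boundary curve -/

/-- `f` has no harmonic `k` with respect to the direction of the normal -/
def NoH (Θ f : ℝ → ℝ) (k : ℕ) : Prop :=
  (∫ t in (0 : ℝ)..2 * Real.pi, f t * Real.cos (k * Θ t) * deriv Θ t = 0) ∧
  ∫ t in (0 : ℝ)..2 * Real.pi, f t * Real.sin (k * Θ t) * deriv Θ t = 0

/-- HARM: the consequences for the squared distance (even harmonics, rotations) and for the length
element (odd harmonics, translations). `N = σ exp(iΘ)`, `γ' = i N`; for the squared distance use the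
rotation about `a`: `⟨i (γ - a), N⟩ = -(1/2) (‖γ - a‖²)'`, and integrate by parts. -/
def S_HARM : Prop := ∀ (φ : ℂ → ℂ) (r : ℝ) (Θ : ℝ → ℝ) (m : ℕ), Dom φ r → Ang φ Θ →
  (∀ (j : ℕ) (a : ℂ) (b : ℝ), j ≤ m → ∫ t in (0 : ℝ)..2 * Real.pi,
    (conj (N φ t) / N φ t) ^ j * (ip (kf a b (γ φ t)) (N φ t) : ℂ) = 0) →
  (∀ a : ℂ, ∀ j : ℕ, 1 ≤ j → j ≤ m → NoH Θ (fun t => ‖γ φ t - a‖ ^ 2) (2 * j)) ∧
  ∀ j : ℕ, j ≤ m →
    (∫ t in (0 : ℝ)..2 * Real.pi, ‖N φ t‖ * Real.cos ((2 * j + 1 : ℕ) * Θ t) = 0) ∧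
    ∫ t in (0 : ℝ)..2 * Real.pi, ‖N φ t‖ * Real.sin ((2 * j + 1 : ℕ) * Θ t) = 0

/-- the support function with respect to `a` -/
noncomputable def hs (φ : ℂ → ℂ) (Θ : ℝ → ℝ) (a : ℂ) (t : ℝ) : ℝ :=
  ((γ φ t - a) * Complex.exp (-(Θ t * Complex.I))).re

/-- HSUP: harmonics of the support function; `∫ σ exp(ikΘ) dt = (1 - k²) ∫ h exp(ikΘ) Θ' dt`. With
`(γ - a) exp(-iΘ) = h + i g` one has `h' = g Θ'`, `g' = σ - h Θ'` (`hasDerivAt_z` in
P8H8/SV/Core.lean); integrate by parts twice. -/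
def S_HSUP : Prop := ∀ (φ : ℂ → ℂ) (r : ℝ) (Θ : ℝ → ℝ) (a : ℂ) (k : ℕ), Dom φ r → Ang φ Θ →
  (∫ t in (0 : ℝ)..2 * Real.pi, ‖N φ t‖ * Real.cos (k * Θ t) =
    (1 - (k : ℝ) ^ 2) * ∫ t in (0 : ℝ)..2 * Real.pi, hs φ Θ a t * Real.cos (k * Θ t) * deriv Θ t) ∧
  ∫ t in (0 : ℝ)..2 * Real.pi, ‖N φ t‖ * Real.sin (k * Θ t) =
    (1 - (k : ℝ) ^ 2) * ∫ t in (0 : ℝ)..2 * Real.pi, hs φ Θ a t * Real.sin (k * Θ t) * deriv Θ t

/-- NFOLD: `n`-fold symmetric domains -/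
def S_NFOLD : Prop := ∀ (φ : ℂ → ℂ) (r : ℝ) (Θ : ℝ → ℝ) (n : ℕ), Dom φ r → Ang φ Θ → 1 ≤ n →
  (∀ w ∈ ball (0 : ℂ) r, φ (Complex.exp (2 * Real.pi * Complex.I / n) * w) =
    Complex.exp (2 * Real.pi * Complex.I / n) * φ w) →
  ∀ t, γ φ (t + 2 * Real.pi / n) = Complex.exp (2 * Real.pi * Complex.I / n) * γ φ t ∧
    Θ (t + 2 * Real.pi / n) = Θ t + 2 * Real.pi / n

/-- ORTHN: functions with the period `2π/n` have only the harmonics divisible by `n` -/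
def S_ORTHN : Prop := ∀ (Θ f : ℝ → ℝ) (n k : ℕ), 1 ≤ n → ContDiff ℝ 1 Θ → Continuous f →
  (∀ t, Θ (t + 2 * Real.pi / n) = Θ t + 2 * Real.pi / n) → (∀ t, f (t + 2 * Real.pi / n) = f t) →
  ¬ n ∣ k → NoH Θ f k

/-- TAU: the opposite point (parallel tangents) -/
def S_TAU : Prop := ∀ Θ : ℝ → ℝ, Continuous Θ → StrictMono Θ →
  (∀ t, Θ (t + 2 * Real.pi) = Θ t + 2 * Real.pi) →
  ∃ τ : ℝ → ℝ, Continuous τ ∧ StrictMono τ ∧ (∀ t, Θ (τ t) = Θ t + Real.pi) ∧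
    (∀ t, τ (τ t) = t + 2 * Real.pi) ∧ ∀ t, τ (t + 2 * Real.pi) = τ t + 2 * Real.pi

/-- CHG: the harmonics of `f ∘ τ`. (Substitution `θ = Θ t`: `∫_0^{2π} F(Θ t) Θ' t dt
= ∫_{Θ 0}^{Θ 0 + 2π} F(θ) dθ` for the continuous function `F = (f cos(kΘ)) ∘ Θ⁻¹`.) -/
def S_CHG : Prop := ∀ (Θ τ f : ℝ → ℝ) (k : ℕ), ContDiff ℝ 1 Θ → StrictMono Θ →
  (∀ t, Θ (t + 2 * Real.pi) = Θ t + 2 * Real.pi) → Continuous τ → (∀ t, Θ (τ t) = Θ t + Real.pi) →
  Continuous f → (∀ t, f (t + 2 * Real.pi) = f t) →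
  (∫ t in (0 : ℝ)..2 * Real.pi, f (τ t) * Real.cos (k * Θ t) * deriv Θ t =
    (-1) ^ k * ∫ t in (0 : ℝ)..2 * Real.pi, f t * Real.cos (k * Θ t) * deriv Θ t) ∧
  ∫ t in (0 : ℝ)..2 * Real.pi, f (τ t) * Real.sin (k * Θ t) * deriv Θ t =
    (-1) ^ k * ∫ t in (0 : ℝ)..2 * Real.pi, f t * Real.sin (k * Θ t) * deriv Θ t

/-- WIDTH: constant width `D` and no odd harmonics `1, 3, ..., 2m+1` of the length element: for a
suitable centre the support function minus `D / 2` is orthogonal to all harmonics `≤ 2 m + 2`.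
Proof: `h(t) + h(τ t) = D` (at opposite points; the centre cancels), so the even harmonics
`k ≥ 2` vanish by CHG, `k = 0` too; the odd ones `k ≥ 3` by HSUP; `k = 1` by the choice of `a`:
`h_a = h_0 - Re (a exp(-iΘ))`, `a = (1/π) ∫ h_0 exp(iΘ) Θ' dt`. -/
def S_WIDTH : Prop := ∀ (φ : ℂ → ℂ) (r : ℝ) (Θ : ℝ → ℝ) (m : ℕ) (D : ℝ), Dom φ r → Ang φ Θ →
  (∀ t, 0 ≤ deriv Θ t) → StrictMono Θ →
  (∀ j : ℕ, j ≤ m →
    (∫ t in (0 : ℝ)..2 * Real.pi, ‖N φ t‖ * Real.cos ((2 * j + 1 : ℕ) * Θ t) = 0) ∧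
    ∫ t in (0 : ℝ)..2 * Real.pi, ‖N φ t‖ * Real.sin ((2 * j + 1 : ℕ) * Θ t) = 0) →
  (∀ s t, Θ s = Θ t + Real.pi →
    ((γ φ s - γ φ t) * Complex.exp (-(Θ s * Complex.I))).re = D) →
  ∃ a : ℂ, ∀ k : ℕ, k ≤ 2 * m + 2 → NoH Θ (fun t => hs φ Θ a t - D / 2) k

/-- FLAT: the zeros of the curvature are isolated. (`Θ' t` is the real part of a function
holomorphic near the unit circle, at `exp(it)`, hence real-analytic; it does not vanish identically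
near any point because `Θ` is strictly increasing.) -/
def S_FLAT : Prop := ∀ (φ : ℂ → ℂ) (r : ℝ) (Θ : ℝ → ℝ), Dom φ r → Ang φ Θ → StrictMono Θ →
  ∀ t0 : ℝ, ∀ᶠ t in 𝓝[≠] t0, deriv Θ t ≠ 0

/-- PAIR: opposite points with equal curvature. Let `s` be a primitive of `σ = ‖N‖`,
`L = s(2π) - s(0)`, `f(t) = s(t) - (L/2π) Θ(t)` (periodic), `G(t) = f(t) - f(τ t)
= s(t) - s(τ t) + L/2`. By hypothesis and integration by parts `f` has no odd harmonics `≤ 2m+1`;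
by CHG `G` has no harmonics `≤ 2m+2`, so by `S_STURM` (proved: `Pool.Agent.P8H69.SV.t_STURM`)
`G = 0` or `AltSigns (2m+3) G`. If `G = 0`, then `s(τ t) = s(t) + L/2`, so `τ` is smooth and
`(γ (τ t) + γ t)' = 0`. Otherwise between a point where `G > 0` and a later one where `G < 0` there
is a point where `κ(τ t) < κ(t)`: if `κ(τ t) ≥ κ(t)` on the whole interval, then at all `t` with
`Θ'(τ t) ≠ 0` one has `G' = σ(t) (1 - κ(t)/κ(τ t)) ≥ 0`, the exceptional points are isolated (FLAT),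
so `G` is nondecreasing, a contradiction; the other case is similar. -/
def S_PAIR : Prop := ∀ (φ : ℂ → ℂ) (r : ℝ) (Θ τ : ℝ → ℝ) (m : ℕ), Dom φ r → Ang φ Θ →
  (∀ t, 0 ≤ deriv Θ t) → StrictMono Θ → Continuous τ → StrictMono τ →
  (∀ t, Θ (τ t) = Θ t + Real.pi) → (∀ t, τ (τ t) = t + 2 * Real.pi) →
  (∀ j : ℕ, j ≤ m →
    (∫ t in (0 : ℝ)..2 * Real.pi, ‖N φ t‖ * Real.cos ((2 * j + 1 : ℕ) * Θ t) = 0) ∧
    ∫ t in (0 : ℝ)..2 * Real.pi, ‖N φ t‖ * Real.sin ((2 * j + 1 : ℕ) * Θ t) = 0) →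
  (∃ a : ℂ, ∀ t, γ φ (τ t) + γ φ t = a) ∨
    AltSigns (2 * m + 3) (fun t => curv φ (τ t) - curv φ t)

/-- HCON: constant support function: the domain is a disc (`h' = g Θ' = 0`, and `Θ' > 0` on a dense
set, so `g = 0` and `‖γ - a‖ = |h| = R`; then `Pool.Agent.P8H7.SV.t_DISC`). -/
def S_HCON : Prop := ∀ (φ : ℂ → ℂ) (r : ℝ) (Θ : ℝ → ℝ) (a : ℂ) (R : ℝ), Dom φ r → Ang φ Θ →
  StrictMono Θ → (∀ t, hs φ Θ a t = R) → 0 < R → φ '' ball 0 1 = ball a R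

end Pool.Agent.P8H8.EV
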